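import Mathlib

set_option autoImplicit false

open Topology MeasureTheory

namespace Pool.Agent.Results.MP_847604_al.SLTwoPadic

section Algebra

variable {R : Type*} [CommRing R]

/-- The matrix with given entries, as an element of the special linear group. -/
def M (a b c d : R) (h : a * d - b * c = 1) : Matrix.SpecialLinearGroup (Fin 2) R :=
  ⟨!![a, b; c, d], by rw [Matrix.det_fin_two_of]; exact h⟩

theorem exists_M (g : Matrix.SpecialLinearGroup (Fin 2) R) :
    ∃ a b c d h, g = M a b c d h := by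
  obtain ⟨g, hg⟩ := g
  rw [Matrix.det_fin_two] at hg
  refine ⟨g 0 0, g 0 1, g 1 0, g 1 1, hg, Subtype.ext ?_⟩
  exact Matrix.eta_fin_two g

theorem M_ext {a b c d a' b' c' d' : R} {h h'} (h1 : a = a') (h2 : b = b') (h3 : c = c')
    (h4 : d = d') : M a b c d h = M a' b' c' d' h' := by
  subst h1 h2 h3 h4; rfl

theorem M_mul {a b c d a' b' c' d' : R} {h h'} :
    M a b c d h * M a' b' c' d' h' =
      M (a * a' + b * c') (a * b' + b * d') (c * a' + d * c') (c * b' + d * d')
        (by linear_combination (a' * d' - b' * c') * h + h') := by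
  apply Subtype.ext
  show !![a, b; c, d] * !![a', b'; c', d'] = _
  rw [Matrix.mul_fin_two]
  rfl

theorem M_one : (1 : Matrix.SpecialLinearGroup (Fin 2) R) = M 1 0 0 1 (by ring) := by
  apply Subtype.ext
  exact Matrix.one_fin_two

theorem M_inv {a b c d : R} {h} :
    (M a b c d h)⁻¹ = M d (-b) (-c) a (by linear_combination h) := by
  rw [inv_eq_iff_mul_eq_one, M_mul, M_one]
  apply M_ext
  · linear_combination h
  · ring
  · ring
  · linear_combination h

/-- Upper elementary matrix. -/
def E (x : R) : Matrix.SpecialLinearGroup (Fin 2) R := M 1 x 0 1 (by ring)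

/-- Lower elementary matrix. -/
def F (x : R) : Matrix.SpecialLinearGroup (Fin 2) R := M 1 0 x 1 (by ring)

variable {N : Subgroup (Matrix.SpecialLinearGroup (Fin 2) R)}

theorem conj_mem (hN : N.Normal) {g : Matrix.SpecialLinearGroup (Fin 2) R} (hg : g ∈ N)
    (h : Matrix.SpecialLinearGroup (Fin 2) R) : h * g * h⁻¹ ∈ N := hN.conj_mem g hg h

theorem comm_mem (hN : N.Normal) {g : Matrix.SpecialLinearGroup (Fin 2) R} (hg : g ∈ N)
    (h : Matrix.SpecialLinearGroup (Fin 2) R) : g * h * g⁻¹ * h⁻¹ ∈ N := by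
  have h1 := N.mul_mem hg (conj_mem hN (N.inv_mem hg) h)
  have h2 : g * (h * g⁻¹ * h⁻¹) = g * h * g⁻¹ * h⁻¹ := by group
  rwa [h2] at h1

/-- From an element with lower left entry `c` produce elementary matrices. -/
theorem elem_mem (hN : N.Normal) {a b c d : R} {h} (hg : M a b c d h ∈ N) {u v z : R}
    (huv : u * v = 1) (hz : c * z = d * (u - v)) (y : R) : E ((u ^ 4 - 1) * y) ∈ N := by
  have h1 := comm_mem hN hg (M u z 0 v (by linear_combination huv))
  have h2 : M a b c d h * M u z 0 v (by linear_combination huv) * (M a b c d h)⁻¹ *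
      (M u z 0 v (by linear_combination huv))⁻¹ =
      M (v ^ 2) (-(v * z) + (-(a * u * b) + a * (a * z + b * v)) * u) 0 (u ^ 2)
        (by linear_combination (u * v + 1) * huv) := by
    rw [M_inv, M_inv, M_mul, M_mul, M_mul]
    apply M_ext
    · linear_combination (-a*v) * hz + v * v * h
    · linear_combination (a * z) * hz + (- v * z) * h
    · linear_combination (-c * v) * hz
    · linear_combination ((c * z) + a * u) * hz + (u*u) * h
  rw [h2] at h1
  have h3 := comm_mem hN h1 (E (-(u ^ 4 * y)))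
  convert h3 using 1
  unfold E
  rw [M_inv, M_inv, M_mul, M_mul, M_mul]
  have e1 : u ^ 2 * v ^ 2 = 1 := by linear_combination (u * v + 1) * huv
  have e2 : u ^ 4 * v ^ 4 = 1 := by linear_combination (u ^ 2 * v ^ 2 + 1) * e1
  apply M_ext
  · linear_combination (-1 : R) * e1
  · linear_combination (-(u ^ 4 * y)) * e1 + y * e2
  · ring
  · linear_combination (-1 : R) * e1

/-- Conjugating with the Weyl element. -/
theorem lower_mem (hN : N.Normal) {x : R} (hx : E x ∈ N) : F (-x) ∈ N := by
  have h1 := conj_mem hN hx (M 0 1 (-1) 0 (by ring))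
  convert h1 using 1
  unfold E F
  rw [M_inv, M_mul, M_mul]
  apply M_ext <;> ring

/-- Diagonal matrices from elementary ones. -/
theorem diag_mem {x y e : R} (he : (1 + x * y) * e = 1)
    (h1 : E x ∈ N) (h2 : F y ∈ N) (h3 : F (-(y * e)) ∈ N) (h4 : E (-(x * e)) ∈ N) :
    M (1 + x * y) 0 0 e (by linear_combination he) ∈ N := by
  have h5 := N.mul_mem (N.mul_mem (N.mul_mem h3 h1) h2) h4
  convert h5 using 1
  unfold E F
  rw [M_mul, M_mul, M_mul]
  apply M_ext
  · ring
  · linear_combination (x : R) * he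
  · linear_combination (y : R) * he
  · linear_combination (1 - x * y * e) * he

/-- A congruence subgroup is contained in `N`. -/
theorem congruence_mem (hN : N.Normal) {δ : R} (hδ : ∀ y, E (δ * y) ∈ N)
    {a b c d : R} {h} (e b' c' k : R) (ha : a = 1 + δ * (δ * k)) (he : a * e = 1)
    (hb : b = δ * b') (hc : c = δ * c') : M a b c d h ∈ N := by
  have hδ' : ∀ y, F (δ * y) ∈ N := by
    intro y
    have := lower_mem hN (hδ (-y))
    convert this using 2
    ring
  have h1 : M (1 + δ * (δ * k)) 0 0 e (by rw [← ha]; linear_combination he) ∈ N := by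
    apply diag_mem (by rw [← ha]; exact he)
    · have := hδ 1
      rwa [mul_one] at this
    · exact hδ' k
    · convert hδ' (-(k * e)) using 2
      ring
    · convert hδ (-e) using 2
      ring
  have h2 := N.mul_mem (N.mul_mem (hδ' (c' * e)) h1) (hδ (e * b'))
  convert h2 using 1
  unfold E F
  rw [M_mul, M_mul]
  subst hb hc
  apply M_ext
  · rw [ha]; ring
  · rw [← ha]; linear_combination (-(δ * b')) * he
  · rw [← ha]; linear_combination (-(δ * c')) * he
  · rw [← ha]; linear_combination (-d) * he + e * h - (δ * c' * e * δ * b') * he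

end Algebra

section Padic

variable {p : ℕ} [hp : Fact p.Prime]

/-- The group of all `2 × 2` matrices of determinant one over the `p`-adic integers. -/
abbrev SLp (p : ℕ) [Fact p.Prime] : Type := Matrix.SpecialLinearGroup (Fin 2) ℤ_[p]

theorem p_ne_zero : (p : ℤ_[p]) ≠ 0 := by
  exact_mod_cast hp.out.ne_zero

theorem two_add_ne (h2 : p ≠ 2) (x : ℤ_[p]) : 2 + p * x ≠ 0 := by
  intro h
  have h1 : (p : ℤ_[p]) ^ 1 ∣ ((2 : ℤ) : ℤ_[p]) := ⟨-x, by push_cast; linear_combination h⟩
  rw [PadicInt.pow_p_dvd_int_iff] at h1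
  have h3 : p ∣ 2 := by
    rw [pow_one] at h1
    exact_mod_cast h1
  exact h2 ((Nat.prime_dvd_prime_iff_eq hp.out Nat.prime_two).mp h3)

theorem unit_one_add (x : ℤ_[p]) : ∃ v : ℤ_[p], (1 + p * x) * v = 1 := by
  have h1 : IsUnit (1 + p * x : ℤ_[p]) := by
    rw [PadicInt.isUnit_iff]
    have h2 : ‖(p : ℤ_[p]) * x‖ < 1 := (PadicInt.norm_lt_one_iff_dvd _).mpr ⟨x, rfl⟩
    have h3 : ‖(1 : ℤ_[p])‖ ≠ ‖(p : ℤ_[p]) * x‖ := by
      rw [norm_one]
      exact h2.ne'
    rw [PadicInt.norm_add_eq_max_of_ne h3, norm_one]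
    exact max_eq_left h2.le
  obtain ⟨v, hv⟩ := h1.exists_right_inv
  exact ⟨v, hv⟩

/-- A normal subgroup containing an element with nonzero lower left entry is open. -/
theorem isOpen_of_lower (h2 : p ≠ 2) {N : Subgroup (SLp p)} (hN : N.Normal) {a b c d : ℤ_[p]} {h}
    (hg : M a b c d h ∈ N) (hc : c ≠ 0) : IsOpen (N : Set (SLp p)) := by
  obtain ⟨v, hv⟩ := unit_one_add (p := p) c
  set u : ℤ_[p] := 1 + p * c with hu
  have hz : c * (d * v * (p * (2 + p * c))) = d * (u - v) := by
    have : u ^ 2 - 1 = c * (p * (2 + p * c)) := by rw [hu]; ring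
    calc c * (d * v * (p * (2 + p * c))) = d * v * (c * (p * (2 + p * c))) := by ring
      _ = d * v * (u ^ 2 - 1) := by rw [this]
      _ = d * (u - v) := by linear_combination (d * u) * hv
  have hmem := fun y => elem_mem hN hg hv hz y
  set δ : ℤ_[p] := u ^ 4 - 1 with hδ
  have hδ0 : δ ≠ 0 := by
    have e1 : δ = (p * c) * (2 + p * c) * (2 + p * (2 * c + p * c ^ 2)) := by
      rw [hδ, hu]; ring
    rw [e1]
    exact mul_ne_zero (mul_ne_zero (mul_ne_zero p_ne_zero hc) (two_add_ne h2 _)) (two_add_ne h2 _)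
  set η : ℤ_[p] := p * (δ * δ) with hη
  have hη0 : η ≠ 0 := mul_ne_zero p_ne_zero (mul_ne_zero hδ0 hδ0)
  -- the set of elements congruent to `1` modulo `η` is a neighbourhood of `1`
  have hball : ∀ x : ℤ_[p], ‖x‖ ≤ ‖η‖ → ∃ y, x = η * y := by
    intro x hx
    have hη1 : 0 < ‖(η : ℚ_[p])‖ := norm_pos_iff.mpr (PadicInt.coe_ne_zero.mpr hη0)
    refine ⟨⟨(x : ℚ_[p]) / (η : ℚ_[p]), ?_⟩, ?_⟩
    · rw [norm_div, div_le_one hη1]
      exact hx
    · apply PadicInt.ext
      have h0 : (η : ℚ_[p]) ≠ 0 := PadicInt.coe_ne_zero.mpr hη0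
      show (x : ℚ_[p]) = (η : ℚ_[p]) * ((x : ℚ_[p]) / (η : ℚ_[p]))
      field_simp
  apply Subgroup.isOpen_of_mem_nhds N (g := 1)
  have hcont : ∀ i j : Fin 2, Continuous fun g : (SLp p) => (g : Matrix (Fin 2) (Fin 2) ℤ_[p]) i j :=
    fun i j => (continuous_apply_apply i j).comp continuous_subtype_val
  have hη1 : 0 < ‖η‖ := norm_pos_iff.mpr hη0
  have n1 : ∀ i j : Fin 2, ∀ᶠ g : (SLp p) in 𝓝 1,
      ‖(g : Matrix (Fin 2) (Fin 2) ℤ_[p]) i j - (1 : Matrix (Fin 2) (Fin 2) ℤ_[p]) i j‖ < ‖η‖ := by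
    intro i j
    have h3 : Filter.Tendsto (fun g : (SLp p) => ‖(g : Matrix (Fin 2) (Fin 2) ℤ_[p]) i j -
        (1 : Matrix (Fin 2) (Fin 2) ℤ_[p]) i j‖) (𝓝 1) (𝓝 ‖(0 : ℤ_[p])‖) := by
      have h4 : Continuous (fun g : (SLp p) => ‖(g : Matrix (Fin 2) (Fin 2) ℤ_[p]) i j -
        (1 : Matrix (Fin 2) (Fin 2) ℤ_[p]) i j‖) := ((hcont i j).sub continuous_const).norm
      have h5 := h4.tendsto 1
      simpa using h5
    rw [norm_zero] at h3
    exact h3.eventually (gt_mem_nhds hη1)
  filter_upwards [n1 0 0, n1 0 1, n1 1 0] with g g1 g2 g3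
  obtain ⟨a', b', c', d', h', rfl⟩ := exists_M g
  simp only [Matrix.one_apply_eq, M, Matrix.SpecialLinearGroup.coe_mk, Matrix.of_apply,
    Matrix.cons_val', Matrix.cons_val_zero, Matrix.cons_val_one, Matrix.cons_val_fin_one,
    ne_eq, zero_ne_one, one_ne_zero, not_false_eq_true, Matrix.one_apply_ne, sub_zero] at g1 g2 g3
  obtain ⟨α, hα⟩ := hball _ g1.le
  obtain ⟨β, hβ⟩ := hball _ g2.le
  obtain ⟨γ, hγ⟩ := hball _ g3.le
  obtain ⟨e, he⟩ := unit_one_add (p := p) (δ * δ * α)
  show M a' b' c' d' h' ∈ N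
  refine congruence_mem hN hmem e (p * δ * β) (p * δ * γ) (p * α) ?_ ?_ ?_ ?_
  · rw [sub_eq_iff_eq_add.mp hα, hη]; ring
  · rw [sub_eq_iff_eq_add.mp hα, hη]; linear_combination he
  · rw [hβ, hη]; ring
  · rw [hγ, hη]; ring

/-- A normal subgroup with an element other than `1` and `-1` is open. -/
theorem isOpen_of_ne (h2 : p ≠ 2) {N : Subgroup (SLp p)} (hN : N.Normal) {g : (SLp p)}
    (hg : g ∈ N) (h1 : g ≠ 1) (h1' : g ≠ -1) : IsOpen (N : Set (SLp p)) := by
  obtain ⟨a, b, c, d, h, rfl⟩ := exists_M g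
  by_cases hc : c = 0
  · by_cases hb : b = 0
    · -- conjugate by a lower elementary matrix
      have had : a - d ≠ 0 := by
        intro had
        have e1 : d = a := (sub_eq_zero.mp had).symm
        subst hc hb e1
        have e2 : (d - 1) * (d + 1) = 0 := by linear_combination h
        rcases mul_eq_zero.mp e2 with e3 | e3
        · apply h1
          rw [M_one]
          have := sub_eq_zero.mp e3
          apply M_ext <;> simp [this]
        · apply h1'
          have := eq_neg_of_add_eq_zero_left e3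
          apply Subtype.ext
          ext i j
          fin_cases i <;> fin_cases j <;> simp [M, this]
      subst hb hc
      have h3 := conj_mem hN hg (M 1 0 1 1 (by ring))
      rw [M_inv, M_mul, M_mul] at h3
      refine isOpen_of_lower h2 hN h3 ?_
      intro h4
      apply had
      linear_combination h4
    · subst hc
      have h3 := conj_mem hN hg (M 0 1 (-1) 0 (by ring))
      rw [M_inv, M_mul, M_mul] at h3
      refine isOpen_of_lower h2 hN h3 ?_
      intro h4
      apply hb
      linear_combination (-1 : ℤ_[p]) * h4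
  · exact isOpen_of_lower h2 hN hg hc

theorem uncountable_padicInt : Uncountable ℤ_[p] := by
  by_contra h
  have hc : Countable ℤ_[p] := not_uncountable_iff.mp h
  have h1 : IsOpen (Set.range (fun x : ℤ_[p] => (x : ℚ_[p]))) :=
    PadicInt.isOpenEmbedding_coe.isOpen_range
  have h2 := continuum_le_cardinal_of_isOpen ℚ_[p] h1 ⟨_, ⟨(0 : ℤ_[p]), rfl⟩⟩
  have h3 : (Set.range (fun x : ℤ_[p] => (x : ℚ_[p]))).Countable := Set.countable_range _
  exact absurd (h2.trans h3.le_aleph0) (not_le.mpr Cardinal.aleph0_lt_continuum)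

instance : Uncountable (SLp p) := by
  have h0 := uncountable_padicInt (p := p)
  refine Function.Injective.uncountable (f := fun x : ℤ_[p] => (E x : (SLp p))) ?_
  intro x y hxy
  have h1 := congrArg (fun g : (SLp p) => (g : Matrix (Fin 2) (Fin 2) ℤ_[p]) 0 1) hxy
  simpa [E, M] using h1

instance : CompactSpace (Matrix (Fin 2) (Fin 2) ℤ_[p]) :=
  inferInstanceAs (CompactSpace (Fin 2 → Fin 2 → ℤ_[p]))

instance : TopologicalSpace.MetrizableSpace (Matrix (Fin 2) (Fin 2) ℤ_[p]) :=
  inferInstanceAs (TopologicalSpace.MetrizableSpace (Fin 2 → Fin 2 → ℤ_[p]))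

instance : TotallyDisconnectedSpace (Matrix (Fin 2) (Fin 2) ℤ_[p]) :=
  inferInstanceAs (TotallyDisconnectedSpace (Fin 2 → Fin 2 → ℤ_[p]))

instance : CompactSpace (SLp p) :=
  Matrix.SpecialLinearGroup.isClosedEmbedding_val.compactSpace

instance : TopologicalSpace.MetrizableSpace (SLp p) :=
  Matrix.SpecialLinearGroup.isClosedEmbedding_val.isEmbedding.metrizableSpace

instance : NonarchimedeanGroup (SLp p) where
  is_nonarchimedean := by
    intro U hU
    have : TotallyDisconnectedSpace (SLp p) :=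
      inferInstanceAs (TotallyDisconnectedSpace
        {A : Matrix (Fin 2) (Fin 2) ℤ_[p] // A.det = 1})
    obtain ⟨V, hVU, hV, h1⟩ := mem_nhds_iff.mp hU
    obtain ⟨H, hH⟩ := ProfiniteGrp.exist_openNormalSubgroup_sub_open_nhds_of_one hV h1
    exact ⟨H.toOpenSubgroup, hH.trans hVU⟩

end Padic

/-- For every odd prime `p`, the group `G = SL₂(ℤ_p)` is an uncountable compact metrizable
non-archimedean group in which every normal subgroup other than the subgroups of `{1, -1}`
is open of finite index; in particular every uncountable normal subgroup has finite index.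
Hence the answers to both questions are negative. -/
theorem result :
    (∀ (p : ℕ) [Fact p.Prime], p ≠ 2 →
      Uncountable (Matrix.SpecialLinearGroup (Fin 2) ℤ_[p]) ∧
      CompactSpace (Matrix.SpecialLinearGroup (Fin 2) ℤ_[p]) ∧
      TopologicalSpace.MetrizableSpace (Matrix.SpecialLinearGroup (Fin 2) ℤ_[p]) ∧
      NonarchimedeanGroup (Matrix.SpecialLinearGroup (Fin 2) ℤ_[p]) ∧
      ∀ N : Subgroup (Matrix.SpecialLinearGroup (Fin 2) ℤ_[p]), N.Normal →
        (∃ g ∈ N, g ≠ 1 ∧ g ≠ -1) →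
        IsOpen (N : Set (Matrix.SpecialLinearGroup (Fin 2) ℤ_[p])) ∧ N.FiniteIndex) ∧
    (∃ (G : Type) (_ : Group G) (_ : TopologicalSpace G), NonarchimedeanGroup G ∧
      CompactSpace G ∧ TopologicalSpace.MetrizableSpace G ∧ Uncountable G ∧
      ∀ N : Subgroup G, N.Normal → Uncountable N → Finite (G ⧸ N)) ∧
    (¬ ∀ (G : Type) [Group G] [TopologicalSpace G], NonarchimedeanGroup G → CompactSpace G →
      TopologicalSpace.MetrizableSpace G → Uncountable G →
      ∃ N : Subgroup G, N.Normal ∧ MeasurableSet[borel G] (N : Set G) ∧ Uncountable N ∧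
        Uncountable (G ⧸ N)) ∧
    ¬ ∀ (G : Type) [Group G] [TopologicalSpace G], NonarchimedeanGroup G → CompactSpace G →
      TopologicalSpace.MetrizableSpace G → Uncountable G →
      ∃ N : Subgroup G, N.Normal ∧ AnalyticSet (N : Set G) ∧ Uncountable N ∧
        Uncountable (G ⧸ N) := by
  have key : ∀ (p : ℕ) [Fact p.Prime], p ≠ 2 →
      ∀ N : Subgroup (Matrix.SpecialLinearGroup (Fin 2) ℤ_[p]), N.Normal →
        (∃ g ∈ N, g ≠ 1 ∧ g ≠ -1) →
        IsOpen (N : Set (Matrix.SpecialLinearGroup (Fin 2) ℤ_[p])) ∧ N.FiniteIndex := by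
    intro p _ h2 N hN ⟨g, hg, h1, h1'⟩
    have hopen := isOpen_of_ne h2 hN hg h1 h1'
    have := Subgroup.quotient_finite_of_isOpen N hopen
    exact ⟨hopen, Subgroup.finiteIndex_of_finite_quotient⟩
  have main : ∃ (G : Type) (_ : Group G) (_ : TopologicalSpace G), NonarchimedeanGroup G ∧
      CompactSpace G ∧ TopologicalSpace.MetrizableSpace G ∧ Uncountable G ∧
      ∀ N : Subgroup G, N.Normal → Uncountable N → Finite (G ⧸ N) := by
    have : Fact (Nat.Prime 3) := ⟨Nat.prime_three⟩
    refine ⟨Matrix.SpecialLinearGroup (Fin 2) ℤ_[3], inferInstance, inferInstance, inferInstance,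
      inferInstance, inferInstance, inferInstance, ?_⟩
    intro N hN hunc
    have hex : ∃ g ∈ N, g ≠ 1 ∧ g ≠ -1 := by
      by_contra hno
      push Not at hno
      have h3 : (N : Set (Matrix.SpecialLinearGroup (Fin 2) ℤ_[3])) ⊆ {1, -1} := by
        intro g hg
        by_cases h : g = 1
        · exact Or.inl h
        · exact Or.inr (hno g hg h)
      have h4 : Countable N := ((Set.toFinite _).subset h3).countable
      exact not_countable h4
    have := (key 3 (by norm_num) N hN hex).2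
    exact Subgroup.finite_quotient_of_finiteIndex
  refine ⟨fun p _ h2 => ⟨inferInstance, inferInstance, inferInstance, inferInstance, key p h2⟩,
    main, ?_, ?_⟩
  · intro h
    obtain ⟨G, _, _, h1, h2, h3, h4, h5⟩ := main
    obtain ⟨N, hN, -, hu, hq⟩ := h G h1 h2 h3 h4
    have := h5 N hN hu
    exact not_countable (α := G ⧸ N) inferInstance
  · intro h
    obtain ⟨G, _, _, h1, h2, h3, h4, h5⟩ := main
    obtain ⟨N, hN, -, hu, hq⟩ := h G h1 h2 h3 h4
    have := h5 N hN hu
    exact not_countable (α := G ⧸ N) inferInstance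

end Pool.Agent.Results.MP_847604_al.SLTwoPadic
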